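import Pool.Agent.SPW.Main

/-!
# Typical ranks with respect to `Sub_{m-1}(Sⁿ ℝ^m)`, all `n ≥ 1`, `m ≥ 3`

Write `N e = dim S^e ℝ^m = choose (e + m - 1) (m - 1)`. The typical ranks are the integers of an
interval `[g, G]`.
* `g` is the least `s` with `N (n - s) ≤ (m - 1) s` (truncated subtraction).
* `G ≤ s` for every `s` with `N (n - s) ≤ 2 ^ i s`, `2 ^ i ≤ m - 1`, and `G ≤ n - 1` for `n ≥ 3`.
* If `m` is even then `G ≥ s + 1` for every `s` with `(m - 2) s + 2 ≤ N (n - s)`.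
* If `m - 1` is a power of two then `G = g`. If `m - 2 = 2 ^ i ≥ 2` then `G` is the least `s` with
  `N (n - s) ≤ 2 ^ i s`, or one less, the latter only if `N (n - G) = 2 ^ i G + 1`.
-/

namespace Pool.Agent.Results.MP_18ca16_ag.CodimPowers

open Pool.Agent.SubTyp

theorem result (n m : ℕ) (hn : 1 ≤ n) (hm : 3 ≤ m) :
    ∃ g G : ℕ, g ≤ G ∧ {d : ℕ | IsTypicalRank (SymSubVar n m (m - 1)) d} = Set.Icc g G ∧
      IsLeast {s : ℕ | (n - s + (m - 1)).choose (m - 1) ≤ (m - 1) * s} g ∧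
      (∀ i s, 2 ^ i ≤ m - 1 → (n - s + (m - 1)).choose (m - 1) ≤ 2 ^ i * s → G ≤ s) ∧
      (3 ≤ n → G ≤ n - 1) ∧
      (Even m → ∀ s, (m - 2) * s + 2 ≤ (n - s + (m - 1)).choose (m - 1) → s + 1 ≤ G) ∧
      ((∃ i, m - 1 = 2 ^ i) → G = g) ∧
      (∀ i, 1 ≤ i → m - 2 = 2 ^ i →
        ∀ G₀, IsLeast {s : ℕ | (n - s + (m - 1)).choose (m - 1) ≤ 2 ^ i * s} G₀ →
          G = G₀ ∨ (G + 1 = G₀ ∧ (n - G + (m - 1)).choose (m - 1) = 2 ^ i * G + 1)) := by
  obtain ⟨g, G, h1, h2, h3, h4, h5, h6⟩ := codim_powers hn hm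
  refine ⟨g, G, h1, Set.ext h2, h3, h4, h5, h6, ?_, ?_⟩
  · rintro ⟨i, hi⟩
    refine le_antisymm (h4 i g hi.ge ?_) h1
    rw [← hi]
    exact h3.1
  · intro i hi him G₀ h0
    obtain ⟨q, rfl⟩ : ∃ q, m = q + 2 := ⟨m - 2, by omega⟩
    have hq : q = 2 ^ i := him
    have hm1 : q + 2 - 1 = q + 1 := rfl
    have hm2 : q + 2 - 2 = q := rfl
    have heven : Even (q + 2) := by
      have h7 : Even (2 ^ i) := (Nat.even_pow' (by omega)).2 even_two
      rw [hq]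
      exact h7.add even_two
    have hup : ∀ s, (n - s + (q + 1)).choose (q + 1) ≤ q * s → G ≤ s := by
      intro s hs
      refine h4 i s (by omega) ?_
      rw [← hq]
      exact hs
    have h6' := h6 heven
    rw [hm1] at h3 h0 ⊢
    rw [← hq] at h0 ⊢
    exact power_arith (by omega) h1 h3 hup (fun s hs => h6' s hs) h0

end Pool.Agent.Results.MP_18ca16_ag.CodimPowers
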