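import Pool.Agent.SubTwo.Large

/-!
# Typical ranks with respect to subspace varieties: large balanced formats

Tensors (Q1): let `x` be the product of all `mᵢ / rᵢ`.

* (1) For all `n`, `T` and `δ > 0` there is `C` such that for all formats with `x ≤ T` and
  `C rᵢ (mᵢ - rᵢ) ≤ r₁ ⋯ rₙ` in one of the regions (a), (b), (c) of `InRegion` every typical rank lies
  between the round-ups of `x - δ` and of `x + δ`, and the round-up of `x` is the only typical rank if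
  these are equal. The regions: (a) `mᵢ ≥ min (n, 5) rᵢ` for all `i`; (b) `2 m ≥ 3 r` for one factor
  and `r ∣ m` or `m ≥ 5 r` for the others; (c) `m / r` is large enough for one factor.
* (2) In the same regions the round-up of `x` is the only typical rank of all large multiples
  `(N mᵢ)`, `(N rᵢ)` of a format; if `x` is an integer then `N` has to be a multiple of some `K`.

Symmetric tensors (Q2): let `x = (m / r) ^ n`.

* (3) The analogue of (1) for `m ≥ min (n, 5) r`. If `s = k ^ n + n t`, `⌈m / k⌉ (s - t) ≤ r s` and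
  `x ≥ s - 1 + δ` then `s` is the only typical rank; `t = 0`, `k = m / r` is the case `r ∣ m`.
* (4) Bounds for all typical ranks of all formats, from such `s`, from box numbers of tensor
  formats and from the dimension count.
-/

namespace Pool.Agent.Results.MP_18ca16_ag.LargeFormats

open Pool.Agent.SubTyp Pool.Agent.SubTwo

theorem result :
    (∀ (n : ℕ) (T δ : ℝ), 0 < δ → ∃ C : ℕ, ∀ m r : Fin n → ℕ,
      (∀ i, 1 ≤ r i ∧ r i ≤ m i ∧ C * (r i * (m i - r i)) ≤ ∏ j, r j) →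
      ∀ x : ℝ, x = (∏ i, (m i : ℝ)) / (∏ i, (r i : ℝ)) → x ≤ T → InRegion m r C δ x →
        Near (TypTen m r) x δ) ∧
    (∀ (n : ℕ) (m r : Fin n → ℕ) (x : ℝ), 3 ≤ n → (∀ i, 1 ≤ r i ∧ r i ≤ m i) →
      x = (∏ i, (m i : ℝ)) / (∏ i, (r i : ℝ)) → InRegion m r 0 0 x →
      ∃ K N₀ : ℕ, 1 ≤ K ∧ ∀ N, N₀ ≤ N → (¬ ∏ i, r i ∣ ∏ i, m i) ∨ K ∣ N →
        TypTen (fun i => N * m i) (fun i => N * r i) = {⌈x⌉₊}) ∧
    (∀ (n : ℕ) (T δ : ℝ), 3 ≤ n → 0 < δ → ∃ C : ℕ, ∀ m r : ℕ, C ≤ r → 1 ≤ r ∧ r ≤ m →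
      ∀ x : ℝ, x = ((m : ℝ) / r) ^ n → x ≤ T →
        (min n 5 * r ≤ m → Near (TypSym n m r) x δ) ∧
        ∀ k t s : ℕ, 1 ≤ k → s = k ^ n + n * t → ⌈(m : ℚ) / k⌉₊ * (s - t) ≤ r * s →
          (s : ℝ) - 1 + δ ≤ x → TypSym n m r = {s}) ∧
    (∀ n m r : ℕ, 1 ≤ n → 1 ≤ r ∧ r ≤ m →
      (∀ d ∈ TypSym n m r,
        (m + n - 1).choose n ≤ d * ((r + n - 1).choose n + r * (m - r))) ∧
      ∀ s : ℕ, ((∃ k t : ℕ, 1 ≤ k ∧ s = k ^ n + n * t ∧ ⌈(m : ℚ) / k⌉₊ * (s - t) ≤ r * s) ∨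
        ∃ K L M : ℕ, 1 ≤ L ∧ L ≤ K ∧ n ≤ M ∧ m ≤ M * K ∧ M * L + (n - 1) * K ≤ r ∧
          s = boxNumber (fun _ : Fin n => K) (fun _ => L)) →
        (∀ d ∈ TypSym n m r, d ≤ s) ∧
        ((s - 1) * ((r + n - 1).choose n + r * (m - r)) < (m + n - 1).choose n →
          TypSym n m r = {s})) :=
  ⟨large_one, fun _ _ _ _ hn hr hx hreg => large_two hn hr hx hreg,
    fun _ T δ hn hδ => large_three T δ hn hδ, fun _ _ _ hn hr => large_four hn hr⟩

end Pool.Agent.Results.MP_18ca16_ag.LargeFormats
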