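import Pool.Agent.SubTyp.RpMain
import Pool.Agent.SubTyp.RpOne

/-!
# Typical ranks of all real formats `2 × p × q`

Let `1 ≤ c ≤ 2`, `1 ≤ a ≤ p` and `1 ≤ b ≤ q`. The set of typical ranks over `ℝ` with respect to the
subspace variety `Sub_{c,a,b}(ℝ² ⊗ ℝ^p ⊗ ℝ^q)` is as follows.

* `c = 2`: `p / a` and `p / a + 1` if `p = q` and `a = b` is odd and a proper divisor of `p`; in all
  other cases only the maximum of the round-ups of `min (p, 2q) / a` and `min (q, 2p) / b`.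
* `c = 1`, with `r = min (a, b)`: if `p ≠ q`, only the maximum of the round-up of `min (p, q) / r`
  plus one and the round-up of `min (max (p, q), 2 min (p, q)) / r`; if `p = q ≥ 2` and `r` divides
  `p - 1`, then `(p - 1) / r + 1` and `(p - 1) / r + 2`; if `p = q` and `r` does not divide `p - 1`,
  only the round-up of `p / r` plus one; if `p = q = 1`, only `1`.
-/

namespace Pool.Agent.Results.MP_18ca16_ag.Pencils

open Pool.Agent.SubTyp

theorem ceil_eq {n r : ℕ} (hr : 0 < r) : ⌈(n : ℚ) / (r : ℚ)⌉₊ = (n + r - 1) / r := by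
  refine eq_of_forall_ge_iff fun t => ?_
  have h1 : (0 : ℚ) < (r : ℚ) := by exact_mod_cast hr
  rw [Nat.ceil_le, div_le_iff₀ h1, ← Nat.cast_mul, Nat.cast_le,
    Nat.div_le_iff_le_mul_add_pred hr, Nat.mul_comm t]
  omega

theorem two (p q a b : ℕ) (ha : 1 ≤ a) (hap : a ≤ p) (hb : 1 ≤ b) (hbq : b ≤ q) :
    ((p = q ∧ a = b ∧ Odd a ∧ a ∣ p ∧ a < p) →
      {d : ℕ | IsTypicalRank (SubVar ![2, p, q] ![2, a, b]) d} = {p / a, p / a + 1}) ∧
    (¬ (p = q ∧ a = b ∧ Odd a ∧ a ∣ p ∧ a < p) →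
      {d : ℕ | IsTypicalRank (SubVar ![2, p, q] ![2, a, b]) d} =
        {max ⌈((min p (2 * q) : ℕ) : ℚ) / (a : ℚ)⌉₊ ⌈((min q (2 * p) : ℕ) : ℚ) / (b : ℚ)⌉₊}) := by
  constructor
  · rintro ⟨rfl, rfl, h2, h3, h4⟩
    have key := typical_pencils ha hap ha hap
    ext d
    rw [Set.mem_ofPred_eq, key d, Set.mem_insert_iff, Set.mem_singleton_iff, min_self]
    obtain ⟨t, rfl⟩ := h3
    have e : (a * t + a - 1) / a = a * t / a := by
      have : a * t + a - 1 = a * t + (a - 1) := by omega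
      rw [this, Nat.mul_add_div (by omega), Nat.div_eq_of_lt (by omega), add_zero,
        Nat.mul_div_cancel_left t (by omega)]
    rw [e]
    constructor
    · rintro (h | ⟨-, -, -, -, h⟩)
      · exact Or.inl h
      · exact Or.inr h
    · rintro (h | h)
      · exact Or.inl h
      · exact Or.inr ⟨rfl, Nat.odd_iff.1 h2, ⟨t, rfl⟩, h4, h⟩
  · intro h
    rw [ceil_eq (by omega), ceil_eq (by omega)]
    by_cases hpq : p = q
    · subst hpq
      have key := typical_pencils ha hap hb hbq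
      have e1 : min p (2 * p) = p := min_eq_left (by omega)
      have e2 : max ((p + a - 1) / a) ((p + b - 1) / b) = (p + min a b - 1) / min a b := by
        refine eq_of_forall_ge_iff fun t => ?_
        rw [max_le_iff, Nat.div_le_iff_le_mul_add_pred (by omega),
          Nat.div_le_iff_le_mul_add_pred (by omega), Nat.div_le_iff_le_mul_add_pred (by omega)]
        rcases le_total a b with h5 | h5
        · have h6 := Nat.mul_le_mul_right t h5
          rw [min_eq_left h5]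
          omega
        · have h6 := Nat.mul_le_mul_right t h5
          rw [min_eq_right h5]
          omega
      rw [e1, e2]
      ext d
      rw [Set.mem_ofPred_eq, key d, Set.mem_singleton_iff]
      constructor
      · rintro (h1 | ⟨h1, h2, h3, h4, -⟩)
        · exact h1
        · exact absurd ⟨rfl, h1, Nat.odd_iff.2 h2, h3, h4⟩ h
      · exact fun h1 => Or.inl h1
    · ext d
      rw [Set.mem_ofPred_eq, typical_two ha hap hb hbq hpq d, Set.mem_singleton_iff]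

theorem one (p q a b r : ℕ) (ha : 1 ≤ a) (hap : a ≤ p) (hb : 1 ≤ b) (hbq : b ≤ q)
    (hr : r = min a b) :
    (p ≠ q → {d : ℕ | IsTypicalRank (SubVar ![2, p, q] ![1, a, b]) d} =
      {max (⌈((min p q : ℕ) : ℚ) / (r : ℚ)⌉₊ + 1)
        ⌈((min (max p q) (2 * min p q) : ℕ) : ℚ) / (r : ℚ)⌉₊}) ∧
    (p = q → 2 ≤ p → r ∣ p - 1 → {d : ℕ | IsTypicalRank (SubVar ![2, p, q] ![1, a, b]) d} =
      {(p - 1) / r + 1, (p - 1) / r + 2}) ∧
    (p = q → ¬ r ∣ p - 1 → {d : ℕ | IsTypicalRank (SubVar ![2, p, q] ![1, a, b]) d} =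
      {⌈(p : ℚ) / (r : ℚ)⌉₊ + 1}) ∧
    (p = q → p = 1 → {d : ℕ | IsTypicalRank (SubVar ![2, p, q] ![1, a, b]) d} = {1}) := by
  have hr1 : 0 < r := by omega
  refine ⟨fun hpq => ?_, fun hpq hp hdvd => ?_, fun hpq hdvd => ?_, fun hpq hp => ?_⟩
  · rw [ceil_eq hr1, ceil_eq hr1]
    ext d
    rw [Set.mem_ofPred_eq, Set.mem_singleton_iff]
    rcases lt_or_gt_of_ne hpq with h | h
    · rw [typical_one_lt ha hap hb hbq h d, min_eq_left h.le, max_eq_right h.le, hr]
    · rw [rtypical_swap one_le_two hap hbq le_rfl ha hb, typical_one_lt hb hbq ha hap h d,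
        min_eq_right h.le, max_eq_left h.le, hr, min_comm b a]
  · subst hpq
    obtain ⟨n, rfl⟩ : ∃ n, p = n + 1 := ⟨p - 1, by omega⟩
    rw [Nat.add_sub_cancel] at hdvd ⊢
    ext d
    rw [hr] at hdvd
    rw [Set.mem_ofPred_eq, typical_one_dvd ha hap hb hbq (by omega) hdvd d, hr,
      Set.mem_insert_iff, Set.mem_singleton_iff]
  · subst hpq
    obtain ⟨n, rfl⟩ : ∃ n, p = n + 1 := ⟨p - 1, by omega⟩
    rw [Nat.add_sub_cancel] at hdvd
    rw [ceil_eq hr1]
    have e : (n + 1 + r - 1) / r + 1 = n / r + 2 := by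
      have : n + 1 + r - 1 = n + r := by omega
      rw [this, Nat.add_div_right n hr1]
    rw [e]
    ext d
    rw [hr] at hdvd
    rw [Set.mem_ofPred_eq, typical_one_ndvd ha hap hb hbq hdvd d, hr, Set.mem_singleton_iff]
  · subst hpq
    subst hp
    obtain rfl : a = 1 := by omega
    obtain rfl : b = 1 := by omega
    ext d
    rw [Set.mem_ofPred_eq, typical_one_m1 d, Set.mem_singleton_iff]

/-- The typical ranks of all real formats `2 × p × q` with respect to all subspace varieties. -/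
theorem result (p q c a b r : ℕ) (hc : 1 ≤ c ∧ c ≤ 2) (ha : 1 ≤ a ∧ a ≤ p) (hb : 1 ≤ b ∧ b ≤ q)
    (hr : r = min a b) :
    (c = 2 → p = q ∧ a = b ∧ Odd a ∧ a ∣ p ∧ a < p →
      {d : ℕ | IsTypicalRank (SubVar ![2, p, q] ![c, a, b]) d} = {p / a, p / a + 1}) ∧
    (c = 2 → ¬ (p = q ∧ a = b ∧ Odd a ∧ a ∣ p ∧ a < p) →
      {d : ℕ | IsTypicalRank (SubVar ![2, p, q] ![c, a, b]) d} =
        {max ⌈((min p (2 * q) : ℕ) : ℚ) / (a : ℚ)⌉₊ ⌈((min q (2 * p) : ℕ) : ℚ) / (b : ℚ)⌉₊}) ∧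
    (c = 1 → p ≠ q →
      {d : ℕ | IsTypicalRank (SubVar ![2, p, q] ![c, a, b]) d} =
        {max (⌈((min p q : ℕ) : ℚ) / (r : ℚ)⌉₊ + 1)
          ⌈((min (max p q) (2 * min p q) : ℕ) : ℚ) / (r : ℚ)⌉₊}) ∧
    (c = 1 → p = q → 2 ≤ p → r ∣ p - 1 →
      {d : ℕ | IsTypicalRank (SubVar ![2, p, q] ![c, a, b]) d} =
        {(p - 1) / r + 1, (p - 1) / r + 2}) ∧
    (c = 1 → p = q → ¬ r ∣ p - 1 →
      {d : ℕ | IsTypicalRank (SubVar ![2, p, q] ![c, a, b]) d} = {⌈(p : ℚ) / (r : ℚ)⌉₊ + 1}) ∧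
    (c = 1 → p = q → p = 1 →
      {d : ℕ | IsTypicalRank (SubVar ![2, p, q] ![c, a, b]) d} = {1}) := by
  obtain ⟨t1, t2⟩ := two p q a b ha.1 ha.2 hb.1 hb.2
  obtain ⟨o1, o2, o3, o4⟩ := one p q a b r ha.1 ha.2 hb.1 hb.2 hr
  refine ⟨?_, ?_, ?_, ?_, ?_, ?_⟩ <;> rintro rfl
  · exact t1
  · exact t2
  · exact o1
  · exact o2
  · exact o3
  · exact o4

end Pool.Agent.Results.MP_18ca16_ag.Pencils
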