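import Pool.Agent.SubTwo.Ext
import Pool.Agent.SubTwo.Dim

/-!
# Typical ranks with respect to subspace varieties and box numbers

The box number of a format `(m, r)` is the least number of boxes `A₁ ⊗ ⋯ ⊗ Aₙ`, `dim Aᵢ = rᵢ`, that
span the space of tensors of format `m`.

* If `m₁ ⋯ mₙ ≤ mₙ₊₁` then the only typical rank of the format `(m₁, …, mₙ₊₁)`, `(r₁, …, rₙ₊₁)` is
  the maximum of the box number of the first `n` factors and the round-up of `m₁ ⋯ mₙ / rₙ₊₁`.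
* If `rᵢ = mᵢ` for all `i` outside `K` and the product of the `mᵢ` over `K` is at most the product
  over the complement of `K`, then the only typical rank is the box number.
* The box number is at least the round-up of the product of all `mᵢ / rᵢ`, with equality if all but
  one of the `rᵢ` divide `mᵢ`, and in the main range for two proper factors. For two proper factors
  it is given in all cases.
* For every format all typical ranks are at most the box number and at least what the dimension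
  count gives; if the two bounds agree then the box number is the only typical rank.
-/

namespace Pool.Agent.Results.MP_18ca16_ag.Unbalanced

open Pool.Agent.SubTyp Pool.Agent.SubTwo

theorem result :
    (∀ (n : ℕ) (m r : Fin (n + 1) → ℕ), (∀ i, 1 ≤ r i ∧ r i ≤ m i) →
      ∏ i : Fin n, m i.castSucc ≤ m (Fin.last n) →
      {d : ℕ | IsTypicalRank (SubVar m r) d} =
        {max (boxNumber (fun i : Fin n => m i.castSucc) (fun i : Fin n => r i.castSucc))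
          ⌈(∏ i : Fin n, (m i.castSucc : ℚ)) / (r (Fin.last n) : ℚ)⌉₊}) ∧
    (∀ (n : ℕ) (m r : Fin n → ℕ), (∀ i, 1 ≤ r i ∧ r i ≤ m i) →
      (∀ K : Finset (Fin n), (∀ i, i ∉ K → r i = m i) → ∏ i ∈ K, m i ≤ ∏ i ∈ Kᶜ, m i →
        {d : ℕ | IsTypicalRank (SubVar m r) d} = {boxNumber m r}) ∧
      ⌈(∏ i, (m i : ℚ)) / ∏ i, (r i : ℚ)⌉₊ ≤ boxNumber m r ∧
      (∀ i₀, boxNumber m r ≤
        ⌈((boxNumber m (Function.update r i₀ (m i₀)) : ℚ) * m i₀) / (r i₀ : ℚ)⌉₊) ∧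
      (∀ i₀, (∀ i, i ≠ i₀ → r i ∣ m i) →
        boxNumber m r = ⌈(∏ i, (m i : ℚ)) / ∏ i, (r i : ℚ)⌉₊) ∧
      (∀ i₁ i₂, i₁ ≠ i₂ → (∀ i, i ≠ i₁ → i ≠ i₂ → r i = m i) →
        (r i₁ * r i₂ ≤ (m i₁ - r i₁) * (m i₂ - r i₂) →
          boxNumber m r = ⌈(∏ i, (m i : ℚ)) / ∏ i, (r i : ℚ)⌉₊) ∧
        (¬ r i₁ ∣ m i₁ → ¬ r i₂ ∣ m i₂ → (m i₁ - r i₁) * (m i₂ - r i₂) < r i₁ * r i₂ →
          ∀ (P Q : ℝ) (s : ℕ), P = (m i₁ : ℝ) / r i₁ → Q = (m i₂ : ℝ) / r i₂ →
            s = ⌈max P Q⌉₊ + 1 →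
            ((∃ x : ℝ, min P Q ≤ x ∧ x * max P Q ≤ s ∧
                (x ^ 2 + s ≤ s * x ∨ ∃ k, x = corner s k)) → boxNumber m r = s) ∧
            (¬ (∃ x : ℝ, min P Q ≤ x ∧ x * max P Q ≤ s ∧
                (x ^ 2 + s ≤ s * x ∨ ∃ k, x = corner s k)) → boxNumber m r = s + 1)))) ∧
    (∀ (n : ℕ) (m r ρ : Fin n → ℕ), (∀ i, 1 ≤ r i ∧ r i ≤ m i) →
      (∀ i, r i ≤ ρ i ∧ ρ i ≤ m i) →
      (∀ d, IsTypicalRank (SubVar m r) d → d ≤ boxNumber m r ∧
        ∏ i, m i ≤ d * (∏ i, ρ i + ∑ i, ρ i * (m i - ρ i))) ∧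
      ((boxNumber m r - 1) * (∏ i, ρ i + ∑ i, ρ i * (m i - ρ i)) < ∏ i, m i →
        {d : ℕ | IsTypicalRank (SubVar m r) d} = {boxNumber m r})) :=
  ⟨fun _ _ _ hr hbig => typical_last hr hbig, fun _ _ _ hr =>
    ⟨fun K hK hbig => typical_K K hr hK hbig, boxNumber_ge hr, boxNumber_ext hr,
      boxNumber_div hr, fun _ _ hne hfull => ⟨boxNumber_main hr hne hfull,
        fun hd1 hd2 hlt _ _ _ hP hQ hs => boxNumber_exc hr hne hfull hd1 hd2 hlt hP hQ hs⟩⟩,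
    fun _ _ _ ρ hr hρ => ⟨fun _ hd => ⟨(typical_bounds hr hd).1, (typical_bounds hr hd).2 ρ hρ⟩,
      fun h => typical_dim hr hρ h⟩⟩

end Pool.Agent.Results.MP_18ca16_ag.Unbalanced
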